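import Pool.Agent.helper17.MK.Spec

/-!
# Row KI: the integral equation for the sum `G + H`
-/

set_option autoImplicit false

namespace Pool.Agent.MK

open Finset Real intervalIntegral MeasureTheory

/-- Integrability of `K r / r` on intervals in the positive half line. -/
theorem KI_int (K : ℝ → ℝ) (hK : Continuous K) (a b : ℝ) (ha : 0 < a) (hb : 0 < b) :
    IntervalIntegrable (fun r => K r / r) volume a b := by
  apply ContinuousOn.intervalIntegrable
  apply ContinuousOn.div hK.continuousOn continuousOn_id
  intro x hx h0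
  have h1 : min a b ≤ x := hx.1
  have h2 : 0 < min a b := lt_min ha hb
  simp only [id] at h0
  linarith

/-- The integral equation in the variable `r`. -/
theorem KI_add (u : ℝ) (G H : ℝ → ℝ) (h : RLS.DDE u G H) (v : ℝ) (hv : 1 ≤ v)
    (hvu : v + 1 ≤ u) :
    G (v + 1) + H (v + 1) = 1 + ∫ r in (1 : ℝ)..v, (G r + H r) / r := by
  have hH : H (v + 1) = ∫ r in (1 : ℝ)..v, G r / r := by
    rw [h.hi (v + 1) (by linarith) hvu]
    have e := intervalIntegral.integral_comp_sub_right (a := 2) (b := v + 1)
      (fun r => G r / r) (1 : ℝ)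
    rw [e]
    have e1 : (2 : ℝ) - 1 = 1 := by norm_num
    have e2 : v + 1 - 1 = v := by ring
    rw [e1, e2]
  have hG : G (v + 1) = 1 + ∫ r in (1 : ℝ)..v, H r / r := by
    rcases le_total v 2 with h2 | h2
    · rw [h.g3 (v + 1) (by linarith)]
      have e : ∫ r in (1 : ℝ)..v, H r / r = ∫ _r in (1 : ℝ)..v, (0 : ℝ) := by
        apply intervalIntegral.integral_congr
        intro r hr
        rw [Set.uIcc_of_le hv] at hr
        simp only
        rw [h.h2 r (by linarith [hr.2]), zero_div]
      rw [e]
      simp
    · rw [h.gi (v + 1) (by linarith) hvu]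
      have e := intervalIntegral.integral_comp_sub_right (a := 3) (b := v + 1)
        (fun r => H r / r) (1 : ℝ)
      rw [e]
      have e1 : (3 : ℝ) - 1 = 2 := by norm_num
      have e2 : v + 1 - 1 = v := by ring
      rw [e1, e2]
      have e3 := intervalIntegral.integral_add_adjacent_intervals
        (KI_int H h.cH 1 2 (by norm_num) (by norm_num)) (KI_int H h.cH 2 v (by norm_num) (by linarith))
      have e4 : ∫ r in (1 : ℝ)..2, H r / r = ∫ _r in (1 : ℝ)..2, (0 : ℝ) := by
        apply intervalIntegral.integral_congr
        intro r hr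
        rw [Set.uIcc_of_le (by norm_num)] at hr
        simp only
        rw [h.h2 r (by linarith [hr.2]), zero_div]
      rw [← e3, e4]
      simp
  have e5 : ∫ r in (1 : ℝ)..v, (G r + H r) / r =
      (∫ r in (1 : ℝ)..v, G r / r) + ∫ r in (1 : ℝ)..v, H r / r := by
    rw [← intervalIntegral.integral_add (KI_int G h.cG 1 v (by norm_num) (by linarith))
      (KI_int H h.cH 1 v (by norm_num) (by linarith))]
    apply intervalIntegral.integral_congr
    intro r _
    simp only
    rw [add_div]
  rw [hG, hH, e5]
  ring

/-- The substitution `r = v exp (-σ)`. -/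
theorem KI_sub (K : ℝ → ℝ) (hK : Continuous K) (v : ℝ) (hv : 1 ≤ v) :
    (∫ σ in (0 : ℝ)..Real.log v, K (v * Real.exp (-σ))) = ∫ r in (1 : ℝ)..v, K r / r := by
  have hv0 : 0 < v := by linarith
  have e := intervalIntegral.integral_comp_mul_deriv'' (a := 0) (b := Real.log v)
    (f := fun σ : ℝ => v * Real.exp (-σ)) (f' := fun σ : ℝ => -(v * Real.exp (-σ)))
    (g := fun r => -(K r / r)) ?_ ?_ ?_ ?_
  · have e1 : v * Real.exp (-0) = v := by simp
    have e2 : v * Real.exp (-Real.log v) = 1 := by
      rw [Real.exp_neg, Real.exp_log hv0]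
      field_simp
    simp only [e1, e2] at e
    have e3 : (∫ x in v..(1 : ℝ), -(K x / x)) = ∫ r in (1 : ℝ)..v, K r / r := by
      rw [intervalIntegral.integral_neg, intervalIntegral.integral_symm, neg_neg]
    rw [e3] at e
    rw [← e]
    apply intervalIntegral.integral_congr
    intro σ _
    have e4 : v * Real.exp (-σ) ≠ 0 := (mul_pos hv0 (Real.exp_pos _)).ne'
    simp only [Function.comp]
    field_simp
  · fun_prop
  · intro x _
    apply HasDerivAt.hasDerivWithinAt
    have h1 : HasDerivAt (fun σ : ℝ => Real.exp (-σ)) (Real.exp (-x) * (-1)) x :=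
      (hasDerivAt_neg x).exp
    have h2 := h1.const_mul v
    have h3 : v * (Real.exp (-x) * (-1)) = -(v * Real.exp (-x)) := by ring
    rw [h3] at h2
    exact h2
  · fun_prop
  · apply ContinuousOn.neg
    apply ContinuousOn.div hK.continuousOn continuousOn_id
    rintro x ⟨σ, _, rfl⟩ h0
    exact (mul_pos hv0 (Real.exp_pos (-σ))).ne' h0

theorem KI : KI_stmt := by
  intro u G H hu h
  have hK : Continuous (fun r => G r + H r) := h.cG.add h.cH
  have h1 : ∀ s, s ≤ 2 → G s + H s = 1 := by
    intro s hs
    rw [h.g3 s (by linarith), h.h2 s hs, add_zero]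
  refine ⟨fun v hv => h1 (v + 1) (by linarith), fun v hv hvu => ?_, ?_⟩
  · rw [KI_add u G H h v hv hvu, KI_sub (fun r => G r + H r) hK v hv]
    ring
  · have key : ∀ a b, 2 ≤ a → a ≤ b → b ≤ u → G a + H a ≤ G b + H b := by
      intro a b ha hab hb
      have ea := KI_add u G H h (a - 1) (by linarith) (by linarith)
      have eb := KI_add u G H h (b - 1) (by linarith) (by linarith)
      rw [sub_add_cancel] at ea eb
      have e3 := intervalIntegral.integral_add_adjacent_intervals
        (KI_int (fun r => G r + H r) hK 1 (a - 1) (by norm_num) (by linarith))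
        (KI_int (fun r => G r + H r) hK (a - 1) (b - 1) (by linarith) (by linarith))
      have e4 : 0 ≤ ∫ r in (a - 1)..(b - 1), (G r + H r) / r := by
        apply intervalIntegral.integral_nonneg (by linarith)
        intro r hr
        have h2 := h.g1 r
        have h3 := h.h0 r
        have h4 : 0 < r := by linarith [hr.1]
        positivity
      rw [ea, eb]
      linarith
    intro a ha b hb hab
    simp only [Set.mem_Iic] at ha hb
    simp only
    rcases le_total b 2 with hb2 | hb2
    · rw [h1 a (by linarith), h1 b hb2]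
    · rcases le_total a 2 with ha2 | ha2
      · rw [h1 a ha2, ← h1 2 le_rfl]
        exact key 2 b le_rfl hb2 hb
      · exact key a b ha2 hab hb

end Pool.Agent.MK
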